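import Pool.Agent.TH526.DS.CamMain

/-!
# Tate's conjecture on the pole over extensions with many conjugate elements

`X` is a smooth projective variety over a number field `K`, for example over `K = ℚ`, and `V = A^m(X) ⊗ ℚ`
the space of the classes of the algebraic cycles of codimension `m` defined over the algebraic closure.
For every number field `F ⊇ K` the variety `X_F`, seen as a variety over `ℚ`, is smooth and projective,
with the `L`-function `L(H^{2m}(X_F), s)`, an Euler product over the primes of `F`, and
`rank B^m(X_F) = dim V^{Gal(K̄/F)}`.  The defect over `F` is `ord_{s=m+1} L(H^{2m}(X_F), s) + rank B^m(X_F)`;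
Tate's conjecture for `X_F` says that it is `0`.

Let `F/K` be a finite Galois extension with the group `G` and `N` a normal subgroup, with the field `M`.
The pair `(G, N)` is a Camina pair if every `g ∈ G ∖ N` is conjugate to all elements of `g N`.  Examples:
`G` a Frobenius group and `N` its kernel (`F = K(ζ_p, a^{1/p})`, `M = K(ζ_p)`; dihedral groups of order
`2n`, `n` odd; ...), or `G` an extraspecial `p`-group and `N` its centre (`F/K` a `p`-extension and
`M/K` its maximal abelian part).  More generally, `g` runs through `G ∖ H` for a subgroup `H`, with the
field `L`.  The definitions are in `Pool.Agent.TH526.DS.CamDefs`, `Pool.Agent.W353.AT.TDefs`,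
`Pool.Agent.W353.AT.Defs`, `Pool.Agent.W353.TD.Defs`, `Pool.Agent.W353.EH.Defs` and
`Pool.Agent.W353.EF.Defs`.
-/

set_option autoImplicit false

namespace Pool.Agent.Results.MP_058a58_ag.CaminaExtensions

open NumberField Pool.Agent.W353.TD

/-- **Tate's conjecture on the pole for Camina triples.**  Let `X` be a projective variety of dimension
`d` over a number field `K`, `0 ≤ m ≤ d`, `N` the `2m`-th Betti number, `V` a part of `H^{2m}(X)(m)`, for
instance `V = A^m(X) ⊗ ℚ`, and `s = N - dim V`.  Let `L`, `M`, `F` be finite extensions of `K`, `M ⊆ F`, `M`
and `F` Galois over `K`, such that every `σ ∈ Gal(F/K)` that is not the identity on `L` is conjugate to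
`σ τ` for all `τ ∈ Gal(F/M)`; and let `[L : K] > s²`.
* Let `χ` be an irreducible representation of `Gal(F/K)` that is not trivial on `Gal(F/M)`.  For every
  `η > 0` and all small `ε > 0` (no continuation is assumed) `log |L(m + 1 + ε)| / log(1/ε)`, for
  `L(H^{2m}(X) ⊗ χ, s)`, differs from `dim (V ⊗ χ)^{Gal(K̄/K)}` by at most `s / √[L : K] + η`, where
  `s / √[L : K] < 1`.  If the order at `m + 1` exists (as an integral limit), then it is the one predicted
  by Tate's conjecture.
* If it exists for all these `χ`, then the values of `log |L(m + 1 + ε)| / log(1/ε) - rank` over `F` and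
  over `M` differ by a null function, and the defects over `F` and over `M`, if they exist, are equal: if
  Tate's conjecture on the pole holds for `X_M`, then it holds for `X_F`. -/
theorem result (K : Type) [Field K] [NumberField K] (n d m N : ℕ)
    (X : Set (MvPolynomial (Fin n) (𝓞 K))) (V : Type) [AddCommGroup V] [Module ℚ V]
    [FiniteDimensional ℚ V] (ρ : Representation ℚ Gal(AlgebraicClosure K/K) V) (hm : m ≤ d)
    (hV : IsPart X d m N ρ) : Pool.Agent.TH526.DS.CaminaDefects X d m N ρ :=
  Pool.Agent.TH526.DS.caminaDefects hm hV

end Pool.Agent.Results.MP_058a58_ag.CaminaExtensions
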