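import Pool.Agent.TH375.ED.Tate

/-!
# Tate's conjecture on the pole over all number fields and for all Artin twists: densities

`X` is a smooth projective variety over a number field `K`, for example over `K = ℚ`, and `V = A^m(X) ⊗ ℚ`
the space of the classes of the algebraic cycles of codimension `m` defined over the algebraic closure;
`G = Gal(K̄/K)` with its Haar probability measure `μ`.  For every number field `F ⊇ K` the variety `X_F`,
seen as a variety over `ℚ`, is smooth and projective, `L(H^{2m}(X_F), s)` is an Euler product over the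
primes of `F`, and `rank B^m(X_F) = dim V^{Gal(K̄/F)}`.  The defect over `F` is
`ord_{s=m+1} L(H^{2m}(X_F), s) + rank B^m(X_F)`; Tate's conjecture for `X_F` says that it is `0`.
For an Artin representation `χ` of `K` the defect is
`ord_{s=m+1} L(H^{2m}(X) ⊗ χ, s) + dim (V ⊗ χ)^G`.
The theorem describes all these defects together, and the orders at the other points of the line
`Re s = m + 1`, by one bounded measurable function on `G` for every height; no continuation and no
automorphy is assumed.
The definitions are in `Pool.Agent.W353.TD.Defs`, `Pool.Agent.W353.EF.Defs`, `Pool.Agent.W353.EH.Defs`,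
`Pool.Agent.W353.AT.Defs` and `Pool.Agent.W353.AT.TDefs`.
-/

set_option autoImplicit false

namespace Pool.Agent.Results.MP_058a58_ag.DefectDensities

open Complex Filter Topology NumberField IsDedekindDomain Polynomial MeasureTheory
open Pool.Agent.W353.EH (IsEulerSystem size HasOrder edgePoint)
open Pool.Agent.W353.AT (IsArtin IsTwistedSystem twistRank)
open Pool.Agent.W353.TD (IsPart rank)

section
variable {K : Type} [Field K] [NumberField K] {l : ℕ} {V : Type} [AddCommGroup V] [Module ℚ V]

/-- The mean value of `θ` over the absolute Galois group `Gal(K̄/F)` of the field `F`. -/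
noncomputable def meanOver [MeasurableSpace Gal(AlgebraicClosure K/K)]
    (μ : Measure Gal(AlgebraicClosure K/K)) (θ : Gal(AlgebraicClosure K/K) → ℝ)
    (F : IntermediateField K (AlgebraicClosure K)) : ℝ :=
  ⨍ g in (F.fixingSubgroup : Set Gal(AlgebraicClosure K/K)), θ g ∂μ

open Classical in
/-- The order of the pole of `L(H^{2m}(X_F), s)` at the point `m + 1 + it` predicted by Tate's conjecture:
`rank B^m(X_F)` for `t = 0`, and `0` for `t ≠ 0`. -/
noncomputable def poleOver (ρ : Representation ℚ Gal(AlgebraicClosure K/K) V) (t : ℝ)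
    (F : IntermediateField K (AlgebraicClosure K)) : ℝ := if t = 0 then (rank ρ F : ℝ) else 0

open Classical in
/-- The order of the pole of `L(H^{2m}(X) ⊗ χ, s)` at the point `m + 1 + it` predicted by Tate's
conjecture: the dimension of `(V ⊗ χ)^G` for `t = 0`, and `0` for `t ≠ 0`. -/
noncomputable def poleTwist (ρ : Representation ℚ Gal(AlgebraicClosure K/K) V) (t : ℝ) {n : ℕ}
    (χ : Representation ℂ Gal(AlgebraicClosure K/K) (Fin n → ℂ)) : ℝ :=
  if t = 0 then (twistRank ρ χ : ℝ) else 0

/-- `θ` is the density of the defects at the height `t` along the sequence `e`.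
* For all number fields `F`, `K ⊆ F ⊆ K̄`, of arbitrary degree,
`log |L(H^{2m}(X_F), m + 1 + it + ε)| / log(1/ε)` tends along the sequence to the predicted order of the
pole minus the mean value of `θ` over `Gal(K̄/F)`; if there is a meromorphic continuation of order `r` at
`m + 1 + it`, then the mean value is the defect, `r` plus the predicted order of the pole.
* For all Artin representations `χ` of `K`, with the mean value of the quotients for
`L(H^{2m}(X) ⊗ χ, s)` at the two heights `t` and `-t` the limit is the predicted order of the pole minus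
`∫ θ Re χ`; if there are continuations, with the orders `r` and `r'`, then the integral is
`(r + r') / 2` plus the predicted order of the pole. -/
def IsDefectDensity [MeasurableSpace Gal(AlgebraicClosure K/K)]
    (μ : Measure Gal(AlgebraicClosure K/K)) (X : Set (MvPolynomial (Fin l) (𝓞 K))) (d m N : ℕ)
    (ρ : Representation ℚ Gal(AlgebraicClosure K/K) V)
    (t : ℝ) (e : ℕ → ℝ) (θ : Gal(AlgebraicClosure K/K) → ℝ) : Prop :=
  (∀ (F : IntermediateField K (AlgebraicClosure K)) [NumberField F]
    (B : HeightOneSpectrum (𝓞 F) → ℂ[X]), IsEulerSystem X d (2 * m) N t B →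
    Tendsto (fun j => size (2 * m) t B (e j)) atTop (𝓝 (poleOver ρ t F - meanOver μ θ F)) ∧
    ∀ r : ℤ, HasOrder (2 * m) t B r → meanOver μ θ F = r + poleOver ρ t F) ∧
  (∀ (n : ℕ) (χ : Representation ℂ Gal(AlgebraicClosure K/K) (Fin n → ℂ)), IsArtin χ →
    ∀ B : HeightOneSpectrum (𝓞 K) → ℂ[X], IsTwistedSystem X d (2 * m) N χ t B →
    IsTwistedSystem X d (2 * m) N χ (-t) B →
    Tendsto (fun j => (size (2 * m) t B (e j) + size (2 * m) (-t) B (e j)) / 2)
      atTop (𝓝 (poleTwist ρ t χ - ∫ g, θ g * (χ.character g).re ∂μ)) ∧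
    ∀ r r' : ℤ, HasOrder (2 * m) t B r → HasOrder (2 * m) (-t) B r' →
      ∫ g, θ g * (χ.character g).re ∂μ = (r + r' : ℝ) / 2 + poleTwist ρ t χ)

open Classical in
/-- **The densities of the defects.**  Let `X` be a projective variety of dimension `d` over the number
field `K`, `0 ≤ m ≤ d`, `N` the `2m`-th Betti number, `V` a part of `H^{2m}(X)(m)`, for instance
`V = A^m(X) ⊗ ℚ`, `s = N - dim V`, and `τ_0, τ_1, …` distinct non-negative real numbers (for example
`τ_0 = 0`).  Every sequence `e_j → 0+` has a subsequence with densities of the defects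
`θ_k : Gal(K̄/K) → ℝ` at all heights `t = ± τ_k`: measurable functions with
`θ_k(h g h⁻¹) = θ_k(g) = θ_k(g⁻¹)` whose mean values over `Gal(K̄/F)` are the defects over all number
fields `F ⊇ K`, and whose integrals `∫ θ_k Re χ` are the defects for the twists by all Artin
representations `χ` of `K` (the defects defined by the limits along the subsequence, and equal to those
defined by the orders if there are continuations).  The densities satisfy `|θ_k| ≤ s`, even
`|θ_k| ≤ 2s/π` if `τ_k ≠ 0`, and `∑_k w_k ∫ θ_k² ≤ s²` with `w_k = 2`, and `w_k = 1` if `τ_k = 0`.  For all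
`c` and `η > 0` there is one finite Galois extension `M` of `K` such that, for all heights, the defects
over `F` and over `F ∩ M` differ by less than `η` for all number fields `F ⊇ K` of degree `≤ c`. -/
theorem result (K : Type) [Field K] [NumberField K] (l : ℕ)
    (X : Set (MvPolynomial (Fin l) (𝓞 K))) (d m N : ℕ) (hm : m ≤ d)
    (V : Type) [AddCommGroup V] [Module ℚ V] [FiniteDimensional ℚ V]
    (ρ : Representation ℚ Gal(AlgebraicClosure K/K) V) (hV : IsPart X d m N ρ)
    [MeasurableSpace Gal(AlgebraicClosure K/K)] [BorelSpace Gal(AlgebraicClosure K/K)]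
    (μ : Measure Gal(AlgebraicClosure K/K)) [μ.IsHaarMeasure] [IsProbabilityMeasure μ]
    (τ : ℕ → ℝ) (hτ0 : ∀ k, 0 ≤ τ k) (hτ : Function.Injective τ)
    (e : ℕ → ℝ) (he : Tendsto e atTop (𝓝[>] 0)) (s : ℕ) (hs : s = N - Module.finrank ℚ V) :
    ∃ φ : ℕ → ℕ, StrictMono φ ∧ ∃ θ : ℕ → Gal(AlgebraicClosure K/K) → ℝ,
      (∀ k, Measurable (θ k) ∧ (∀ g, |θ k g| ≤ if τ k = 0 then (s : ℝ) else 2 * s / Real.pi) ∧
        (∀ g h, θ k (h * g * h⁻¹) = θ k g) ∧ (∀ g, θ k g⁻¹ = θ k g) ∧
        ∀ t : ℝ, |t| = τ k → IsDefectDensity μ X d m N ρ t (fun j => e (φ j)) (θ k)) ∧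
      (∀ S : Finset ℕ, ∑ k ∈ S, (if τ k = 0 then 1 else 2) * ∫ g, θ k g ^ 2 ∂μ ≤ (s : ℝ) ^ 2) ∧
      ∀ (c : ℕ) (η : ℝ), 0 < η → ∃ M : IntermediateField K (AlgebraicClosure K),
        FiniteDimensional K M ∧ IsGalois K M ∧
        ∀ (k : ℕ) (F : IntermediateField K (AlgebraicClosure K)) [NumberField F],
          Module.finrank K F ≤ c → |meanOver μ (θ k) F - meanOver μ (θ k) (F ⊓ M)| < η := by
  subst hs
  obtain ⟨φ, hφ, θ, h1, h5, h6, h7⟩ :=
    Pool.Agent.TH375.ED.tate_densities μ hm hV hτ0 hτ he
  have hz : Tendsto (fun j => e (φ j)) atTop (𝓝[>] 0) := he.comp hφ.tendsto_atTop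
  have hlim : ∀ (F : Type) [Field F] [NumberField F] (B : HeightOneSpectrum (𝓞 F) → ℂ[X])
      (t : ℝ) (r : ℤ),
      (∀ᶠ ε : ℝ in 𝓝[>] 0, Pool.Agent.W353.EF.LFun B (edgePoint (2 * m) t + ε) ≠ 0) →
      HasOrder (2 * m) t B r →
      Tendsto (fun j => size (2 * m) t B (e (φ j))) atTop (𝓝 (-(r : ℝ))) := by
    rintro F _ _ B t r hne ⟨Λ, hm1, hm2, hm3⟩
    exact (Pool.Agent.W353.PV.lim_ord hne hm1 (hm2.mono fun s hs hs' => hs (by
      rw [Pool.Agent.W353.AT.edge_re] at hs'
      exact hs')) hm3).comp hz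
  refine ⟨φ, hφ, θ, fun k => ⟨(h1 k).1, fun g => ?_, (h1 k).2.2.1, (h1 k).2.2.2, fun t ht =>
    ⟨fun F _ B hB => ?_, fun n χ hχ B hB hB' => ?_⟩⟩, fun S => ?_, h7⟩
  · refine ((h1 k).2.1 g).trans (le_of_eq ?_)
    unfold Pool.Agent.TH375.ED.cst
    split_ifs
    · rfl
    · ring
  · obtain ⟨h8, h9⟩ := (h5 k t ht).1 F B hB
    refine ⟨h9, fun r hr => ?_⟩
    have h10 : poleOver ρ t F - meanOver μ (θ k) F = -(r : ℝ) :=
      tendsto_nhds_unique h9 (hlim F B t r h8 hr)
    linarith
  · obtain ⟨⟨h8, h8'⟩, h9⟩ := (h5 k t ht).2 n χ hχ B hB hB'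
    refine ⟨h9, fun r r' hr hr' => ?_⟩
    have h10 := hlim K B t r h8 hr
    have h11 := hlim K B (-t) r' h8' hr'
    have h12 : poleTwist ρ t χ - ∫ g, θ k g * (χ.character g).re ∂μ = (-(r : ℝ) + -(r' : ℝ)) / 2 :=
      tendsto_nhds_unique h9 ((h10.add h11).div_const 2)
    linarith
  · refine le_trans (le_of_eq ?_) (h6 S)
    refine Finset.sum_congr rfl fun k _ => ?_
    unfold Pool.Agent.TH375.ED.wt
    split_ifs <;> rfl

end

end Pool.Agent.Results.MP_058a58_ag.DefectDensities
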