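import Pool.Agent.TH820.LG.TowerMain

/-!
# Tate's conjecture on the pole over towers with large linear and alternating groups

`X` is a smooth projective variety over a number field `K`, for example over `K = ℚ`, and `V = A^m(X) ⊗ ℚ`
the space of the classes of the algebraic cycles of codimension `m` defined over the algebraic closure.
For every number field `E ⊇ K` the variety `X_E`, seen as a variety over `ℚ`, is smooth and projective,
with the `L`-function `L(H^{2m}(X_E), s)`, an Euler product over the primes of `E`, and
`rank B^m(X_E) = dim V^{Gal(K̄/E)}`.  The defect over `E` is `ord_{s=m+1} L(H^{2m}(X_E), s) + rank B^m(X_E)`;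
Tate's conjecture for `X_E` says that it is `0`.

Let `M = T_0 ⊆ T_1 ⊆ … ⊆ T_r = F` be finite Galois extensions of `K` such that each group
`Gal(T_{j+1}/T_j)` is a quotient of `SL_n(k)`, for a finite field `k`, on which `Gal(T_{j+1}/K)` acts through
`GL_n(k)`, or a quotient of the alternating group `A_n` on which `Gal(T_{j+1}/K)` acts through the symmetric
group `S_n`.  The numbers `n`, which may depend on `j`, have to be large compared with the number
`s = b_{2m}(X) - dim V` of the transcendental classes; the fields `k`, the number `r` and the group
`Gal(M/K)` are arbitrary.  For example `Gal(F/K)` is `SL_n(k)`, `GL_n(k)`, `PGL_n(k)`, `A_n`, `S_n` or a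
product of groups of these kinds and an arbitrary group.  The definitions are in
`Pool.Agent.TH820.LG.TowerDefs`, `Pool.Agent.TH820.LG.Defs`, `Pool.Agent.TH526.DS.CamDefs`,
`Pool.Agent.W353.AT.TDefs`, `Pool.Agent.W353.AT.Defs`, `Pool.Agent.W353.TD.Defs`,
`Pool.Agent.W353.EH.Defs` and `Pool.Agent.W353.EF.Defs`.
-/

set_option autoImplicit false

namespace Pool.Agent.Results.MP_058a58_ag.LinearGroups

open NumberField Pool.Agent.W353.TD

/-- **Tate's conjecture on the pole over towers with large linear and alternating groups.**  For every
`s` there is a number `n₀` with the following property.  Let `X` be a projective variety of dimension `d`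
over a number field `K`, `0 ≤ m ≤ d`, `N` the `2m`-th Betti number, `V` a part of `H^{2m}(X)(m)`, for
instance `V = A^m(X) ⊗ ℚ`, and `N - dim V ≤ s`.  Let `M = T_0 ⊆ T_1 ⊆ … ⊆ T_r = F` be finite Galois
extensions of `K` such that each `Gal(T_{j+1}/T_j)` is, for some `n ≥ n₀`, a quotient of `SL_n(k)`, `k` a
finite field, on which `Gal(T_{j+1}/K)` acts through `GL_n(k)`, or a quotient of `A_n` on which it acts
through `S_n`.  Suppose that the order at `s = m + 1` of `L(H^{2m}(X) ⊗ χ, s)` exists (as an integral
limit) for all irreducible representations `χ` of `Gal(F/K)` that are not trivial on `Gal(F/M)`.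
* All these orders are the ones predicted by Tate's conjecture.
* Let `E` be any field with `K ⊆ E ⊆ F`.  The values of `log |L(m + 1 + ε)| / log(1/ε) - rank` over `E` and
  over `E ∩ M` differ by a null function, and the defects over `E` and over `E ∩ M`, if they exist, are
  equal: Tate's conjecture on the pole over `E ∩ M` implies it over `E`. -/
theorem result (s : ℕ) : ∃ n₀ : ℕ, ∀ (K : Type) [Field K] [NumberField K] (l d m N : ℕ)
    (X : Set (MvPolynomial (Fin l) (𝓞 K))) (V : Type) [AddCommGroup V] [Module ℚ V]
    [FiniteDimensional ℚ V] (ρ : Representation ℚ Gal(AlgebraicClosure K/K) V), m ≤ d →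
    IsPart X d m N ρ → N ≤ Module.finrank ℚ V + s →
    Pool.Agent.TH820.LG.TowerDefects X d m N ρ n₀ :=
  Pool.Agent.TH820.LG.towerDefects s

end Pool.Agent.Results.MP_058a58_ag.LinearGroups
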