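import Pool.Agent.W353.TD.Main
import Pool.Agent.TH545.Young

/-!
# Tate's conjecture on the pole over all subfields of a field with symmetric Galois group

`X` is a smooth projective variety over a number field `K`, for example over `K = ℚ`, and `V = A^m(X) ⊗ ℚ`
the space of the classes of the algebraic cycles of codimension `m` defined over the algebraic closure.
For every number field `M ⊇ K` the variety `X_M`, seen as a variety over `ℚ`, is smooth and projective,
with the `L`-function `L(H^{2m}(X_M), s)`, an Euler product over the primes of `M`, and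
`rank B^m(X_M) = dim V^{Gal(K̄/M)}`.  The defect over `M` is `ord_{s=m+1} L(H^{2m}(X_M), s) + rank B^m(X_M)`;
Tate's conjecture for `X_M` says that it is `0`.
The definitions are in `Pool.Agent.W353.TD.Defs` and `Pool.Agent.W353.EF.Defs`.
-/

set_option autoImplicit false

namespace Pool.Agent.Results.MP_058a58_ag.SymmetricDefects

open NumberField Filter Topology Polynomial IsDedekindDomain
open Pool.Agent.W353.TD Pool.Agent.W353.EF

/-- **Tate's conjecture on the pole over the subfields of a field with symmetric Galois group.**  For
every `s` there is a number `n₀` with the following property.  Let `X` be a projective variety of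
dimension `d` over a number field `K` (for instance `K = ℚ`), `0 ≤ m ≤ d`, `N` the `2m`-th Betti number,
`V` a part of `H^{2m}(X)(m)`, for instance `V = A^m(X) ⊗ ℚ`, and `N - dim V = s`.  Let `F/K` be an
extension of degree at least `n₀` whose closure `L` has the symmetric group of the embeddings of `F` as
its Galois group, and suppose that there are defects `δ r` over all Young subfields of `L`.

* Let `M` be any field between `K` and `L`.  Then `L(H^{2m}(X_M), m + 1 + ε) ≠ 0` for small `ε > 0`, and
the defect over `M` exists, in the sense that `log |L(m + 1 + ε)| / log(1/ε)` tends to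
`rank B^m(X_M) - k`; it is `k = δ ⊥`, the defect over `L`, if `M` contains `K(√disc F)`, and `k = δ ⊤`,
the defect over `K`, if not.  Moreover `|δ ⊤| + |δ ⊥ - δ ⊤| ≤ s`.
* In particular, if Tate's conjecture is true over `K` and over `L` (the defects are `0`), then the
limit is `rank B^m(X_M)`, as Tate predicts, over every field `M` between `K` and `L`. -/
theorem result (s : ℕ) : ∃ n₀ : ℕ, ∀ (K : Type) [Field K] [NumberField K] (n d m N : ℕ)
    (X : Set (MvPolynomial (Fin n) (𝓞 K))) (V : Type) [AddCommGroup V] [Module ℚ V]
    [FiniteDimensional ℚ V] (ρ : Representation ℚ Gal(AlgebraicClosure K/K) V), m ≤ d →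
    N - Module.finrank ℚ V = s → IsPart X d m N ρ →
    SymmetricDefects X d m N ρ n₀ ∧
    ∀ (F : Type) [Field F] [NumberField F] [Algebra K F], Function.Surjective (perm K F) →
      n₀ ≤ Module.finrank K F →
      (∀ r, ∃ δ : ℤ, Defect X d m N ρ (youngField K F r) δ) →
      Defect X d m N ρ ⊥ 0 → Defect X d m N ρ (closure K F) 0 →
      ∀ (M : IntermediateField K (AlgebraicClosure K)) [NumberField M], M ≤ closure K F →
        ∀ B : HeightOneSpectrum (𝓞 M) → ℂ[X], IsEulerSystem X d (2 * m) N B →
          Tendsto (size (2 * m) B) (𝓝[>] 0) (𝓝 (rank ρ M : ℝ)) := by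
  classical
  obtain ⟨n₀, h⟩ := all s
  refine ⟨n₀, fun K _ _ n d m N X V _ _ _ ρ hm hs hV => ?_⟩
  have h4 : SymmetricDefects X d m N ρ n₀ := (h K n d m N X V ρ hm hs hV).2.2.2
  refine ⟨h4, fun F _ _ _ hF hn hδ h0 h1 M _ hM B hB => ?_⟩
  choose δ' hδ' using hδ
  let δ : Setoid (F →ₐ[K] AlgebraicClosure K) → ℤ := fun r =>
    if r = ⊤ ∨ r = ⊥ then 0 else δ' r
  have hδ : ∀ r, Defect X d m N ρ (youngField K F r) (δ r) := by
    intro r
    by_cases hr : r = ⊤ ∨ r = ⊥
    · have e : δ r = 0 := if_pos hr
      rw [e]
      rcases hr with rfl | rfl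
      · rw [Pool.Agent.TH545.Young.young_top]
        exact h0
      · rw [Pool.Agent.TH545.Young.young_bot]
        exact h1
    · have e : δ r = δ' r := if_neg hr
      rw [e]
      exact hδ' r
  have h5 := ((h4 F hF hn δ hδ).1 M hM B hB).2
  have e : expectedDefect F δ M = 0 := by
    unfold expectedDefect
    have e1 : δ ⊥ = 0 := if_pos (Or.inr rfl)
    have e2 : δ ⊤ = 0 := if_pos (Or.inl rfl)
    rw [e1, e2, ite_self]
  rw [e] at h5
  simpa using h5

end Pool.Agent.Results.MP_058a58_ag.SymmetricDefects
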